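import Pool.Agent.Helper28.MT.Goals2

/-!
# MT2-POTS: the potential does not increase
-/

set_option autoImplicit false

namespace Pool.Agent.Helper70.MT2

open Finset Pool.Agent.Helper28.MT2

theorem usd_succ (u : ℕ → ℕ → ℕ) (j l g : ℕ) :
    usd u (j + 1) l g = (if j / 2 ^ l = g then u j l else 0) + usd u j l g := by
  unfold usd
  rw [range_add_one, filter_insert]
  split_ifs with h
  · rw [sum_insert (by simp)]
  · rw [zero_add]

theorem act_succ (j l g : ℕ) :
    act (j + 1) l g = (if j / 2 ^ l = g then 1 else 0) + act j l g := by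
  unfold act
  rw [range_add_one, filter_insert]
  split_ifs with h
  · rw [card_insert_of_notMem (by simp), add_comm]
  · rw [zero_add]

theorem exp_le (t : ℝ) (h0 : 0 ≤ t) (h1 : t ≤ 1) : Real.exp t ≤ 1 + 2 * t := by
  have h2 := Real.abs_exp_sub_one_sub_id_le (x := t) (by rw [abs_of_nonneg h0]; exact h1)
  have h3 := (abs_le.1 h2).2
  nlinarith

theorem mt2_pots : G_POTS := by
  intro h k s u j hk hs hj hu hw
  have hk0 : (0 : ℝ) < k := by exact_mod_cast hk
  -- the change of one level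
  have hlev : ∀ l ∈ range s, ∑ g ∈ range (2 ^ (s - (l + 1))),
        Real.exp ((usd u (j + 1) (l + 1) g : ℝ) / k - dl h k s l * act (j + 1) (l + 1) g) ≤
      ∑ g ∈ range (2 ^ (s - (l + 1))),
        Real.exp ((usd u j (l + 1) g : ℝ) / k - dl h k s l * act j (l + 1) g) +
      wg h k s u j l * (2 * (u j (l + 1) : ℝ) / k - dl h k s l) := by
    intro l hl
    have hls : l < s := mem_range.1 hl
    have hg : j / 2 ^ (l + 1) ∈ range (2 ^ (s - (l + 1))) := by
      rw [mem_range]
      apply Nat.div_lt_of_lt_mul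
      rw [← pow_add]
      have : l + 1 + (s - (l + 1)) = s := by omega
      rw [this]
      exact hj
    rw [← add_sum_erase _ _ hg, ← add_sum_erase _ _ hg]
    have hoth : ∀ g ∈ (range (2 ^ (s - (l + 1)))).erase (j / 2 ^ (l + 1)),
        Real.exp ((usd u (j + 1) (l + 1) g : ℝ) / k - dl h k s l * act (j + 1) (l + 1) g) =
        Real.exp ((usd u j (l + 1) g : ℝ) / k - dl h k s l * act j (l + 1) g) := by
      intro g hg'
      have : ¬ j / 2 ^ (l + 1) = g := fun h => (mem_erase.1 hg').1 h.symm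
      rw [usd_succ, act_succ, if_neg this, if_neg this, zero_add, zero_add]
    rw [sum_congr rfl hoth]
    have hwg : wg h k s u j l = Real.exp ((usd u j (l + 1) (j / 2 ^ (l + 1)) : ℝ) / k -
        dl h k s l * (act j (l + 1) (j / 2 ^ (l + 1)) + 1)) := by
      unfold wg
      rw [if_pos hls]
    have e1 : Real.exp ((usd u (j + 1) (l + 1) (j / 2 ^ (l + 1)) : ℝ) / k -
        dl h k s l * act (j + 1) (l + 1) (j / 2 ^ (l + 1))) =
        wg h k s u j l * Real.exp ((u j (l + 1) : ℝ) / k) := by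
      rw [usd_succ, act_succ, if_pos rfl, if_pos rfl, hwg, ← Real.exp_add]
      congr 1
      push_cast
      ring
    have e2 : Real.exp ((usd u j (l + 1) (j / 2 ^ (l + 1)) : ℝ) / k -
        dl h k s l * act j (l + 1) (j / 2 ^ (l + 1))) =
        wg h k s u j l * Real.exp (dl h k s l) := by
      rw [hwg, ← Real.exp_add]
      congr 1
      ring
    rw [e1, e2]
    have hw0 : 0 ≤ wg h k s u j l := by
      rw [hwg]
      exact (Real.exp_pos _).le
    have a1 : Real.exp ((u j (l + 1) : ℝ) / k) ≤ 1 + 2 * ((u j (l + 1) : ℝ) / k) := by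
      apply exp_le _ (by positivity)
      rw [div_le_one hk0]
      exact_mod_cast hu l hls
    have a2 : 1 + dl h k s l ≤ Real.exp (dl h k s l) := by
      have := Real.add_one_le_exp (dl h k s l)
      linarith
    have a3 := mul_le_mul_of_nonneg_left a1 hw0
    have a4 := mul_le_mul_of_nonneg_left a2 hw0
    have a5 : wg h k s u j l * (2 * (u j (l + 1) : ℝ) / k - dl h k s l) =
        wg h k s u j l * (1 + 2 * ((u j (l + 1) : ℝ) / k)) - wg h k s u j l * (1 + dl h k s l) := by
      ring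
    rw [a5]
    linarith
  have hsum := sum_le_sum hlev
  rw [sum_add_distrib] at hsum
  have hws : wg h k s u j s = 16 * 2 ^ s := by
    unfold wg
    rw [if_neg (lt_irrefl s)]
  rw [sum_range_succ, sum_range_succ, hws] at hw
  have e3 : ∑ l ∈ range s, wg h k s u j l * (2 * (u j (l + 1) : ℝ) / k - dl h k s l) =
      2 / (k : ℝ) ^ 2 * ((k : ℝ) * ∑ l ∈ range s, wg h k s u j l * (u j (l + 1) : ℝ) -
        16 * ∑ l ∈ range s, wg h k s u j l * (Lth h k s l : ℝ)) := by
    rw [mul_sum, mul_sum, ← sum_sub_distrib, mul_sum]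
    refine sum_congr rfl fun l _ => ?_
    unfold dl
    field_simp
    ring
  have e4 : 32 * (2 : ℝ) ^ s / k * (∑ i ∈ range (j + 1), (u i (s + 1) : ℝ) -
      16 * Lth h k s s / k * ((j + 1 : ℕ) : ℝ)) =
      32 * 2 ^ s / k * (∑ i ∈ range j, (u i (s + 1) : ℝ) - 16 * Lth h k s s / k * j) +
      2 / (k : ℝ) ^ 2 * ((k : ℝ) * (16 * 2 ^ s * (u j (s + 1) : ℝ)) -
        16 * (16 * 2 ^ s * (Lth h k s s : ℝ))) := by
    rw [sum_range_succ]
    push_cast
    field_simp
    ring
  have e5 : 0 ≤ 2 / (k : ℝ) ^ 2 := by positivity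
  have e6 : (k : ℝ) * ∑ l ∈ range s, wg h k s u j l * (u j (l + 1) : ℝ) -
        16 * ∑ l ∈ range s, wg h k s u j l * (Lth h k s l : ℝ) +
      ((k : ℝ) * (16 * 2 ^ s * (u j (s + 1) : ℝ)) - 16 * (16 * 2 ^ s * (Lth h k s s : ℝ))) ≤ 0 := by
    linarith
  have e7 := mul_nonpos_of_nonneg_of_nonpos e5 e6
  rw [mul_add] at e7
  unfold pot
  rw [e4]
  rw [e3] at hsum
  linarith

end Pool.Agent.Helper70.MT2
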